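import Pool.Agent.Y72.Ea.Idm

set_option autoImplicit false

namespace Pool.Agent.Results.MP_f61096_al.ElementaryAmenableSubgroups

open H540DG Pool.Agent.H599R3.SV Pool.Agent.Y72.Ea

/-- Let `G` be (isomorphic to) a diagram group `D(P, w)`.

(1) If `ℤ ^ m` does not embed in `G` for large `m`, then every elementary amenable subgroup of `G`
(in particular every solvable one) is abelian, and every abelian subgroup of `G` is centralized by
its normalizer.

(2) If `G` is finitely presented, the following are equivalent: `G` contains no copy of Thompson's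
group `F`; `w` is not equal modulo `P` to a word `B e C` with a nonempty factor `e` such that
`e = e e` modulo `P`; `ℤ ^ m` does not embed in `G` for large `m`; every elementary amenable
subgroup of `G` is abelian; every solvable subgroup of `G` is abelian.

(3) If `G` is finitely presented and elementary amenable, then `G` is abelian.

(4) If `G` is finitely presented and solvable, then `G` is abelian. -/
theorem result {A : Type} (P : Pres A) (w : List A) {G : Type} [Group G]
    (e : G ≃* DiagramGroup P w) :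
    ((∃ n : ℕ, ∀ m : ℕ, (∃ f : Multiplicative (Fin m → ℤ) →* G, Function.Injective f) → m ≤ n) →
      (∀ H : Subgroup G, EA H → ∀ a ∈ H, ∀ b ∈ H, a * b = b * a) ∧
      (∀ H : Subgroup G, Group.IsSolvable H → ∀ a ∈ H, ∀ b ∈ H, a * b = b * a) ∧
      ∀ N : Subgroup G, (∀ a ∈ N, ∀ b ∈ N, a * b = b * a) →
        ∀ g ∈ Subgroup.normalizer (N : Set G), ∀ a ∈ N, g * a = a * g) ∧
    (Group.IsFinitelyPresented G → List.TFAE [
      ¬ ∃ x : ℕ → G, FSeq x,
      ¬ HasIdem P w,
      ∃ n : ℕ, ∀ m : ℕ, (∃ f : Multiplicative (Fin m → ℤ) →* G, Function.Injective f) → m ≤ n,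
      ∀ H : Subgroup G, EA H → ∀ a ∈ H, ∀ b ∈ H, a * b = b * a,
      ∀ H : Subgroup G, Group.IsSolvable H → ∀ a ∈ H, ∀ b ∈ H, a * b = b * a]) ∧
    (Group.IsFinitelyPresented G → EA (⊤ : Subgroup G) → ∀ x y : G, x * y = y * x) ∧
    (Group.IsFinitelyPresented G → Group.IsSolvable G → ∀ x y : G, x * y = y * x) := by
  have e' : G ≃* Dg P w := e.trans (dgEquiv P w)
  have h3 : Group.IsFinitelyPresented G → EA (⊤ : Subgroup G) → ∀ x y : G, x * y = y * x := by
    intro hfp hea x y
    obtain ⟨n, hn⟩ := fp_G e' hfp (fun ⟨x, hx⟩ =>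
      hea.no_fseq ⟨x, hx, fun j => Subgroup.mem_top _⟩)
    exact ea_G e' hn hea x (Subgroup.mem_top _) y (Subgroup.mem_top _)
  refine ⟨?_, ?_, h3, ?_⟩
  · rintro ⟨n, hn⟩
    refine ⟨fun H h => ea_G e' hn h, fun H h => ea_G e' hn (EA.of_solvable h), ?_⟩
    intro N hN g hg a ha
    refine nor_G e' hn N hN g ?_ ?_ a ha
    · intro b hb
      exact (Subgroup.mem_normalizer_iff.1 hg b).1 hb
    · intro b hb
      have h1 := (Subgroup.mem_normalizer_iff.1 (inv_mem hg) b).1 hb
      rwa [inv_inv] at h1
  · intro hfp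
    tfae_have 1 → 2 := fun hs h => hs (hasIdem_fseq e' h)
    tfae_have 2 → 3 := fun hs => fp_idem e' hfp hs
    tfae_have 3 → 4 := fun ⟨_, hn⟩ _ h => ea_G e' hn h
    tfae_have 4 → 5 := fun h H hH => h H (EA.of_solvable hH)
    tfae_have 5 → 1 := by
      rintro h ⟨x, hx⟩
      obtain ⟨H, hH, a, ha, b, hb, hab⟩ := hx.solvable
      exact hab (h H hH a ha b hb)
    tfae_finish
  · intro hfp hs
    apply h3 hfp
    apply EA.of_solvable
    exact Group.isSolvable_of_isSolvable_injective (f := (⊤ : Subgroup G).subtype)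
      (Subgroup.subtype_injective _)

end Pool.Agent.Results.MP_f61096_al.ElementaryAmenableSubgroups
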