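import Mathlib
import Pool.Agent.Y796.SD.B

set_option autoImplicit false

/-!
# Solvable normal subgroups of finitely presented diagram groups

Diagram groups (definitions in `Pool/Agent/H540R3/DG1.lean` and `DG2.lean`):

* `Pres A` is a semigroup presentation over the alphabet `A`: a set of relations `(u, v)` with
  `u`, `v` nonempty words.
* `OE P` are the oriented edges of the Squier complex, `IsPath w L w'` says that the list `L` of
  oriented edges is an edge path from `w` to `w'`; so `∃ L, IsPath w L w'` says that `w = w'` in the
  semigroup presented by `P`.
* `DiagramGroup P w`: closed edge paths at `w` modulo elementary homotopies, with concatenation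
  (the fundamental group of the Squier complex at `w`).

`NoIdem P w` says that `w` is not equal modulo `P` to a word `B e C` with `e` a nonempty word such
that `e = e e` modulo `P`. `NP G` says that every perfect subgroup of `G` is trivial.
-/

namespace Pool.Agent.Results.MP_f61096_al.SolvableNormalCentral

open H540DG Pool.Agent.Y796.SD Pool.Agent.H599R3.SV

/-- The free abelian subgroups of `G` have bounded rank. -/
def FiniteAD (G : Type) [Group G] : Prop :=
  ∃ n : ℕ, ∀ m : ℕ, (∃ f : Multiplicative (Fin m → ℤ) →* G, Function.Injective f) → m ≤ n

/-- **Main theorem.** Let `G = D(P, w)` be a diagram group.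

(1) If `G` is finitely presented and solvable then `G` is abelian.

(2) Suppose that `G` is finitely presented and that `w` is not equal modulo `P` to a word `B e C` with
a nonempty idempotent factor `e`, or that all the perfect subgroups of `G` are trivial (for instance
that `G` is residually solvable). Then the free abelian subgroups of `G` have bounded rank.

(3) Suppose that the free abelian subgroups of `G` have bounded rank (`G` need not be finitely
presented, nor finitely generated). Then every solvable normal subgroup of `G` is contained in the
centre of `G`; so is every normal subgroup in which any two elements generate a nilpotent subgroup;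
the quotient of `G` by its centre has no nontrivial solvable normal subgroup; and `G` is abelian if
it is solvable. -/
theorem result {A : Type} (P : Pres A) (w : List A) {G : Type} [Group G]
    (e : G ≃* DiagramGroup P w) :
    (Group.IsFinitelyPresented G → Group.IsSolvable G → ∀ x y : G, x * y = y * x) ∧
    (Group.IsFinitelyPresented G → (NoIdem P w ∨ NP G) → FiniteAD G) ∧
    (FiniteAD G →
      (∀ N : Subgroup G, N.Normal → Group.IsSolvable N → N ≤ Subgroup.center G) ∧
      (∀ N : Subgroup G, N.Normal →
        (∀ x ∈ N, ∀ y ∈ N, Group.IsNilpotent (Subgroup.closure {x, y})) →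
          N ≤ Subgroup.center G) ∧
      (∀ N : Subgroup (G ⧸ Subgroup.center G), N.Normal → Group.IsSolvable N → N = ⊥) ∧
      (Group.IsSolvable G → ∀ x y : G, x * y = y * x)) := by
  have e' : G ≃* Dg P w := e.trans (dgEquiv P w)
  have hnh : NH G := (nh_Dg w).of_equiv e'
  have h2 : Group.IsFinitelyPresented G → (NoIdem P w ∨ NP G) → FiniteAD G := by
    intro hfp h
    have hfp' : FinPres (Dg P w) := by
      apply FinPres.congr e'
      obtain ⟨n, φ, h1, R, h2, h3⟩ := hfp.out
      exact ⟨n, φ, h1, R, h2, h3⟩
    have h1 : NoIdem P w := by
      rcases h with h | h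
      · exact h
      · exact noIdem_of_NP (h.of_injective e'.symm.toMonoidHom e'.symm.injective)
    obtain ⟨n, had⟩ := ad w hfp' h1
    refine ⟨n, ?_⟩
    rintro m ⟨f, hf⟩
    exact had m ⟨e'.toMonoidHom.comp f, e'.injective.comp hf⟩
  have h3 : FiniteAD G → AN G := by
    rintro ⟨n, hn⟩
    have had : AdLE (Dg P w) n := by
      rintro m ⟨f, hf⟩
      exact hn m ⟨e'.symm.toMonoidHom.comp f, e'.symm.injective.comp hf⟩
    exact (an_Dg had).of_equiv e'
  have h4 : FiniteAD G → Group.IsSolvable G → ∀ x y : G, x * y = y * x := by
    intro hf hs x y
    have h1 := solv_central (h3 hf) hnh ⊤ inferInstance inferInstance (Subgroup.mem_top x)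
    exact (Subgroup.mem_center_iff.1 h1 y).symm
  exact ⟨fun hfp hs => h4 (h2 hfp (Or.inr (np_of_solvable hs))) hs, h2,
    fun hf => ⟨solv_central (h3 hf) hnh, locnil_central (h3 hf) hnh, solv_mod_center (h3 hf) hnh,
      h4 hf⟩⟩

end Pool.Agent.Results.MP_f61096_al.SolvableNormalCentral
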